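import Pool.Agent.Q287.MG.Defs

set_option autoImplicit false

/-!
# Multitype Galton–Watson branching processes: analytic facts on the generating function and
the first-step decomposition
-/

open MeasureTheory ProbabilityTheory Filter Topology
open scoped ENNReal

namespace Q287.MG

variable {X : Type*}

instance : DiscreteMeasurableSpace (X →₀ ℕ) := ⟨fun _ => trivial⟩

/-- The monomial `s^z`. -/
noncomputable def mon (s : X → ℝ≥0∞) (z : X →₀ ℕ) : ℝ≥0∞ := z.prod fun y k => s y ^ k

theorem mon_add (s : X → ℝ≥0∞) (z w : X →₀ ℕ) : mon s (z + w) = mon s z * mon s w := by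
  classical
  unfold mon
  exact Finsupp.prod_add_index' (fun _ => pow_zero _) (fun _ _ _ => pow_add _ _ _)

theorem mon_zero (s : X → ℝ≥0∞) : mon s 0 = 1 := by simp [mon]

theorem mon_single (s : X → ℝ≥0∞) (x : X) : mon s (Finsupp.single x 1) = s x := by
  simp [mon]

theorem mon_mono {s t : X → ℝ≥0∞} (h : ∀ x, s x ≤ t x) (z : X →₀ ℕ) : mon s z ≤ mon t z := by
  unfold mon Finsupp.prod
  exact Finset.prod_le_prod' fun y _ => pow_le_pow_left' (h y) _

theorem mon_le_one {s : X → ℝ≥0∞} (h : ∀ x, s x ≤ 1) (z : X →₀ ℕ) : mon s z ≤ 1 := by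
  unfold mon Finsupp.prod
  exact Finset.prod_le_one' fun y _ => pow_le_one' (h y) _

theorem mon_rpow (s : X → ℝ≥0∞) (z : X →₀ ℕ) (c : ℝ) (hc : 0 ≤ c) :
    mon (fun x => s x ^ c) z = mon s z ^ c := by
  unfold mon Finsupp.prod
  rw [← ENNReal.prod_rpow_of_nonneg hc]
  refine Finset.prod_congr rfl fun y _ => ?_
  show (s y ^ c) ^ (z y) = (s y ^ (z y)) ^ c
  rw [← ENNReal.rpow_natCast, ← ENNReal.rpow_mul, mul_comm, ENNReal.rpow_mul, ENNReal.rpow_natCast]

theorem mon_mul (s t : X → ℝ≥0∞) (z : X →₀ ℕ) :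
    mon (fun x => s x * t x) z = mon s z * mon t z := by
  unfold mon Finsupp.prod
  rw [← Finset.prod_mul_distrib]
  exact Finset.prod_congr rfl fun y _ => mul_pow _ _ _

theorem mon_finset_sum (s : X → ℝ≥0∞) {ι : Type*} (t : Finset ι) (f : ι → X →₀ ℕ) :
    mon s (∑ i ∈ t, f i) = ∏ i ∈ t, mon s (f i) := by
  classical
  induction t using Finset.induction_on with
  | empty => simp [mon_zero]
  | insert a t ha ih => rw [Finset.sum_insert ha, Finset.prod_insert ha, mon_add, ih]

theorem G_eq_lintegral (p : X → PMF (X →₀ ℕ)) [Countable X] (s : X → ℝ≥0∞) (x : X) :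
    G p s x = ∫⁻ z, mon s z ∂(p x).toMeasure := by
  rw [lintegral_countable']
  unfold G mon
  refine tsum_congr fun j => ?_
  rw [PMF.toMeasure_apply_singleton _ _ (measurableSet_singleton _), mul_comm]

theorem G_mono (p : X → PMF (X →₀ ℕ)) {s t : X → ℝ≥0∞} (h : ∀ x, s x ≤ t x) (x : X) :
    G p s x ≤ G p t x := by
  unfold G
  gcongr with j
  exact mon_mono h j

theorem G_le_one (p : X → PMF (X →₀ ℕ)) {s : X → ℝ≥0∞} (h : ∀ x, s x ≤ 1) (x : X) :
    G p s x ≤ 1 := by
  calc G p s x ≤ ∑' j : X →₀ ℕ, p x j * 1 := by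
        unfold G
        gcongr with j
        exact mon_le_one h j
    _ = 1 := by simp [PMF.tsum_coe]

/-- Sequential continuity. -/
theorem G_tendsto (p : X → PMF (X →₀ ℕ)) [Countable X] {ι : Type*} {l : Filter ι}
    [l.IsCountablyGenerated] [l.NeBot] {f : ι → X → ℝ≥0∞} {s : X → ℝ≥0∞} (hf : ∀ i x, f i x ≤ 1)
    (h : ∀ x, Tendsto (fun i => f i x) l (𝓝 (s x))) (x : X) :
    Tendsto (fun i => G p (f i) x) l (𝓝 (G p s x)) := by
  simp only [G_eq_lintegral]
  refine tendsto_lintegral_filter_of_dominated_convergence (fun _ => 1) ?_ ?_ ?_ ?_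
  · exact Eventually.of_forall fun i => measurable_of_countable _
  · exact Eventually.of_forall fun i => Eventually.of_forall fun z => mon_le_one (hf i) z
  · simp
  · refine Eventually.of_forall fun z => ?_
    unfold mon Finsupp.prod
    refine ENNReal.tendsto_finsetProd_of_ne_top _ (fun y _ => ENNReal.Tendsto.pow (h y)) fun y _ => ?_
    have h1 : s y ≤ 1 := le_of_tendsto' (h y) fun i => hf i y
    exact ENNReal.pow_ne_top (ne_top_of_le_ne_top ENNReal.one_ne_top h1)

/-- Jensen's inequality. -/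
theorem G_rpow (p : X → PMF (X →₀ ℕ)) [Countable X] {s : X → ℝ≥0∞} {c : ℝ} (hc : 1 ≤ c) (x : X) :
    G p s x ^ c ≤ G p (fun y => s y ^ c) x := by
  simp only [G_eq_lintegral]
  simp only [mon_rpow _ _ c (by linarith)]
  have h1 := eLpNorm'_le_eLpNorm'_of_exponent_le (p := 1) (q := c) (f := fun z => mon s z) one_pos hc
    ((p x).toMeasure) (measurable_of_countable _).aestronglyMeasurable
  simp only [eLpNorm', enorm_eq_self, ENNReal.rpow_one, div_one] at h1
  calc (∫⁻ z, mon s z ∂(p x).toMeasure) ^ c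
      ≤ ((∫⁻ z, mon s z ^ c ∂(p x).toMeasure) ^ (1 / c)) ^ c := by gcongr
    _ = _ := by
      rw [← ENNReal.rpow_mul, one_div, inv_mul_cancel₀ (by linarith), ENNReal.rpow_one]

end Q287.MG
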