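import Mathlib

set_option autoImplicit false

/-!
# Multitype Galton–Watson branching processes with countably many types: definitions

`X` is the set of types. A configuration `z : X →₀ ℕ` says how many individuals of each type there
are. The offspring laws are given by `p : X → PMF (X →₀ ℕ)`.
-/

open MeasureTheory ProbabilityTheory Filter
open scoped ENNReal

namespace Q287.MG

variable {X : Type*}

/-- Configurations carry the discrete `σ`-algebra. -/
instance : MeasurableSpace (X →₀ ℕ) := ⊤

/-- The generating function `G_x(s) = ∑_j p_{x,j} ∏_y s_y ^ (j_y)`. -/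
noncomputable def G (p : X → PMF (X →₀ ℕ)) (s : X → ℝ≥0∞) (x : X) : ℝ≥0∞ :=
  ∑' j : X →₀ ℕ, p x j * j.prod fun y k => s y ^ k

/-- The next generation: `η y i` is the offspring of the `i`-th individual of type `y`, and each
of the `z y` individuals of type `y` is replaced by its offspring. -/
noncomputable def nextGen (z : X →₀ ℕ) (η : X → ℕ → X →₀ ℕ) : X →₀ ℕ :=
  z.sum fun y k => ∑ i ∈ Finset.range k, η y i

/-- The process started from the configuration `z`; `ω n y i` is the offspring of the `i`-th
individual of type `y` of generation `n`. -/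
noncomputable def gen (z : X →₀ ℕ) (ω : ℕ → X → ℕ → X →₀ ℕ) : ℕ → X →₀ ℕ
  | 0 => z
  | n + 1 => nextGen (gen z ω n) (ω n)

/-- The law of the independent offspring variables `ω n y i`, with `ω n y i` of law `p y`. -/
noncomputable def law (p : X → PMF (X →₀ ℕ)) : Measure (ℕ → X → ℕ → X →₀ ℕ) :=
  Measure.infinitePi fun _ => Measure.infinitePi fun y => Measure.infinitePi fun _ =>
    (p y).toMeasure

/-- The probability `q_x(A)` of extinction in `A`, starting from one individual of type `x`: the
probability that from some generation on there is no individual with type in `A`. -/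
noncomputable def q (p : X → PMF (X →₀ ℕ)) (A : Set X) (x : X) : ℝ≥0∞ :=
  law p {ω | ∀ᶠ n in atTop, ∀ y ∈ A, gen (Finsupp.single x 1) ω n y = 0}

/-- The set of extinction probability vectors. -/
def Ext (p : X → PMF (X →₀ ℕ)) : Set (X → ℝ≥0∞) := {s | ∃ A : Set X, s = q p A}

/-- The set of fixed points of `G` in `[0,1]^X`. -/
def S (p : X → PMF (X →₀ ℕ)) : Set (X → ℝ≥0∞) :=
  {s | (∀ x, s x ≤ 1) ∧ ∀ x, s x = G p s x}

end Q287.MG
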