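import Pool.Agent.Q287.MG.Proc

set_option autoImplicit false

/-!
# Extinction vectors are fixed points; the bound `s ≤ q(B)`
-/

open MeasureTheory ProbabilityTheory Filter Topology
open scoped ENNReal

namespace Q287.MG

variable {X : Type*} [Countable X]

omit [Countable X] in
theorem avoid_le_one (p : X → PMF (X →₀ ℕ)) (A : Set X) (N : ℕ) (x : X) : avoid p A N x ≤ 1 := by
  induction N generalizing x with
  | zero => exact ind_le_one A x
  | succ N ih => exact mul_le_one' (ind_le_one A x) (G_le_one p ih x)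

omit [Countable X] in
theorem avoid_succ_le (p : X → PMF (X →₀ ℕ)) (A : Set X) (N : ℕ) (x : X) :
    avoid p A (N + 1) x ≤ avoid p A N x := by
  induction N generalizing x with
  | zero =>
    show ind A x * G p (ind A) x ≤ ind A x
    calc ind A x * G p (ind A) x ≤ ind A x * 1 := by
          gcongr
          exact G_le_one p (ind_le_one A) x
      _ = ind A x := mul_one _
  | succ N ih =>
    show ind A x * G p (avoid p A (N + 1)) x ≤ ind A x * G p (avoid p A N) x
    gcongr
    exact G_mono p ih x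

/-- The probability of never visiting `A`. -/
noncomputable def never (p : X → PMF (X →₀ ℕ)) (A : Set X) (x : X) : ℝ≥0∞ := ⨅ N, avoid p A N x

omit [Countable X] in
theorem avoid_tendsto (p : X → PMF (X →₀ ℕ)) (A : Set X) (x : X) :
    Tendsto (fun N => avoid p A N x) atTop (𝓝 (never p A x)) :=
  tendsto_atTop_iInf (antitone_nat_of_succ_le fun N => avoid_succ_le p A N x)

omit [Countable X] in
theorem never_le_one (p : X → PMF (X →₀ ℕ)) (A : Set X) (x : X) : never p A x ≤ 1 :=
  (iInf_le _ 0).trans (avoid_le_one p A 0 x)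

theorem iter_tendsto (p : X → PMF (X →₀ ℕ)) {f : ℕ → X → ℝ≥0∞} {s : X → ℝ≥0∞}
    (hf : ∀ i x, f i x ≤ 1) (h : ∀ x, Tendsto (fun i => f i x) atTop (𝓝 (s x))) (n : ℕ) :
    ∀ x, Tendsto (fun i => (G p)^[n] (f i) x) atTop (𝓝 ((G p)^[n] s x)) := by
  induction n with
  | zero => exact h
  | succ n ih =>
    intro x
    simp only [Function.iterate_succ', Function.comp]
    refine G_tendsto p (fun i y => ?_) ih x
    have : ∀ (m : ℕ) (t : X → ℝ≥0∞), (∀ x, t x ≤ 1) → ∀ y, (G p)^[m] t y ≤ 1 := by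
      intro m
      induction m with
      | zero => intro t ht y; exact ht y
      | succ m ihm =>
        intro t ht y
        rw [Function.iterate_succ', Function.comp]
        exact G_le_one p (ihm t ht) y
    exact this n _ (hf i) y

omit [Countable X] in
theorem iter_le_one (p : X → PMF (X →₀ ℕ)) (m : ℕ) (t : X → ℝ≥0∞) (ht : ∀ x, t x ≤ 1) (y : X) :
    (G p)^[m] t y ≤ 1 := by
  induction m generalizing t y with
  | zero => exact ht y
  | succ m ihm =>
    rw [Function.iterate_succ', Function.comp]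
    exact G_le_one p (ihm t ht) y

omit [Countable X] in
theorem iter_mono (p : X → PMF (X →₀ ℕ)) (m : ℕ) {s t : X → ℝ≥0∞} (h : ∀ x, s x ≤ t x) (y : X) :
    (G p)^[m] s y ≤ (G p)^[m] t y := by
  induction m generalizing s t y with
  | zero => exact h y
  | succ m ihm =>
    rw [Function.iterate_succ', Function.comp, Function.comp]
    exact G_mono p (fun x => ihm h x) y

theorem never_eq (p : X → PMF (X →₀ ℕ)) (A : Set X) (x : X) :
    never p A x = ind A x * G p (never p A) x := by
  have h1 : Tendsto (fun N => avoid p A (N + 1) x) atTop (𝓝 (never p A x)) :=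
    (avoid_tendsto p A x).comp (tendsto_add_atTop_nat 1)
  have h2 : Tendsto (fun N => avoid p A (N + 1) x) atTop (𝓝 (ind A x * G p (never p A) x)) := by
    refine ENNReal.Tendsto.const_mul (G_tendsto p (avoid_le_one p A) (avoid_tendsto p A) x) ?_
    right
    exact ne_top_of_le_ne_top ENNReal.one_ne_top (ind_le_one A x)
  exact tendsto_nhds_unique h1 h2

theorem never_le_G (p : X → PMF (X →₀ ℕ)) (A : Set X) (x : X) :
    never p A x ≤ G p (never p A) x := by
  conv_lhs => rw [never_eq]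
  calc ind A x * G p (never p A) x ≤ 1 * G p (never p A) x := by
        gcongr; exact ind_le_one A x
    _ = _ := one_mul _

theorem never_eq_zero (p : X → PMF (X →₀ ℕ)) {A : Set X} {x : X} (hx : x ∈ A) :
    never p A x = 0 := by
  rw [never_eq]; simp [ind, hx]

theorem never_eq_G (p : X → PMF (X →₀ ℕ)) {A : Set X} {x : X} (hx : x ∉ A) :
    never p A x = G p (never p A) x := by
  conv_lhs => rw [never_eq]
  simp [ind, hx]

theorem measure_from (p : X → PMF (X →₀ ℕ)) (A : Set X) (n : ℕ) (x : X) :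
    law p {ω | ∀ m, n ≤ m → Free A (gen (Finsupp.single x 1) ω m)} = (G p)^[n] (never p A) x := by
  have h1 : Tendsto (fun N => law p {ω | ∀ m, n ≤ m → m ≤ n + N →
      Free A (gen (Finsupp.single x 1) ω m)}) atTop (𝓝 ((G p)^[n] (never p A) x)) := by
    simp only [window_eq, mon_single]
    exact iter_tendsto p (avoid_le_one p A) (avoid_tendsto p A) n x
  have h2 : Tendsto (fun N => law p {ω | ∀ m, n ≤ m → m ≤ n + N →
      Free A (gen (Finsupp.single x 1) ω m)}) atTop
      (𝓝 (law p (⋂ N, {ω | ∀ m, n ≤ m → m ≤ n + N → Free A (gen (Finsupp.single x 1) ω m)}))) := by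
    refine tendsto_measure_iInter_atTop (fun N => (measurableSet_window A _ n _).nullMeasurableSet)
      ?_ ⟨0, measure_ne_top _ _⟩
    intro N N' hN ω hω m hm1 hm2
    exact hω m hm1 (by omega)
  have h3 : (⋂ N, {ω : ℕ → X → ℕ → X →₀ ℕ | ∀ m, n ≤ m → m ≤ n + N →
      Free A (gen (Finsupp.single x 1) ω m)}) =
      {ω | ∀ m, n ≤ m → Free A (gen (Finsupp.single x 1) ω m)} := by
    ext ω
    simp only [Set.mem_iInter, Set.mem_ofPred_eq]
    constructor
    · intro h m hm
      exact h (m - n) m hm (by omega)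
    · intro h N m hm _
      exact h m hm
  rw [h3] at h2
  exact tendsto_nhds_unique h2 h1

theorem q_tendsto (p : X → PMF (X →₀ ℕ)) (A : Set X) (x : X) :
    Tendsto (fun n => (G p)^[n] (never p A) x) atTop (𝓝 (q p A x)) := by
  have h1 : q p A x = law p (⋃ n : ℕ, {ω | ∀ m, n ≤ m → Free A (gen (Finsupp.single x 1) ω m)}) := by
    unfold q
    congr 1
    ext ω
    simp only [Set.mem_ofPred_eq, Set.mem_iUnion, eventually_atTop]
    rfl
  rw [h1]
  simp only [← measure_from]
  refine tendsto_measure_iUnion_atTop ?_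
  intro n n' hn ω hω m hm
  exact hω m (le_trans hn hm)

theorem iter_never_mono (p : X → PMF (X →₀ ℕ)) (A : Set X) (x : X) :
    Monotone (fun n => (G p)^[n] (never p A) x) := by
  refine monotone_nat_of_le_succ fun n => ?_
  show (G p)^[n] (never p A) x ≤ (G p)^[n + 1] (never p A) x
  rw [Function.iterate_succ, Function.comp]
  exact iter_mono p n (never_le_G p A) x

omit [Countable X] in
theorem q_le_one (p : X → PMF (X →₀ ℕ)) (A : Set X) (x : X) : q p A x ≤ 1 := prob_le_one

theorem iter_never_le_q (p : X → PMF (X →₀ ℕ)) (A : Set X) (n : ℕ) (x : X) :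
    (G p)^[n] (never p A) x ≤ q p A x :=
  (iter_never_mono p A x).ge_of_tendsto (q_tendsto p A x) n

theorem never_le_q (p : X → PMF (X →₀ ℕ)) (A : Set X) (x : X) : never p A x ≤ q p A x :=
  iter_never_le_q p A 0 x

/-- Extinction vectors are fixed points. -/
theorem q_mem_S (p : X → PMF (X →₀ ℕ)) (A : Set X) : q p A ∈ S p := by
  refine ⟨q_le_one p A, fun x => ?_⟩
  have h1 : Tendsto (fun n => (G p)^[n + 1] (never p A) x) atTop (𝓝 (q p A x)) :=
    (q_tendsto p A x).comp (tendsto_add_atTop_nat 1)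
  have h2 : Tendsto (fun n => (G p)^[n + 1] (never p A) x) atTop (𝓝 (G p (q p A) x)) := by
    simp only [Function.iterate_succ', Function.comp]
    exact G_tendsto p (fun n y => iter_le_one p n _ (never_le_one p A) y) (q_tendsto p A) x
  exact tendsto_nhds_unique h1 h2

omit [Countable X] in
theorem q_anti (p : X → PMF (X →₀ ℕ)) {A B : Set X} (h : A ⊆ B) (x : X) : q p B x ≤ q p A x := by
  unfold q
  refine measure_mono fun ω hω => ?_
  exact Eventually.mono hω fun n hn y hy => hn y (h hy)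

/-! ### Powers of a fixed point -/

omit [Countable X] in
theorem mon_le_of_notFree {s : X → ℝ≥0∞} (hs : ∀ x, s x ≤ 1) {B : Set X} {σ : ℝ≥0∞}
    (hσ : ∀ x ∈ B, s x ≤ σ) {z : X →₀ ℕ} (hz : ¬ Free B z) : mon s z ≤ σ := by
  classical
  unfold Free at hz
  push Not at hz
  obtain ⟨y, hy, hzy⟩ := hz
  unfold mon Finsupp.prod
  rw [← Finset.mul_prod_erase _ _ (Finsupp.mem_support_iff.2 hzy)]
  calc s y ^ z y * ∏ a ∈ z.support.erase y, s a ^ z a ≤ s y ^ 1 * 1 := by
        refine mul_le_mul' ?_ (Finset.prod_le_one' fun a _ => pow_le_one' (hs a) _)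
        exact pow_le_pow_right_of_le_one' (hs y) (Nat.one_le_iff_ne_zero.2 hzy)
    _ = s y := by simp
    _ ≤ σ := hσ y hy

theorem barrier_zero (p : X → PMF (X →₀ ℕ)) {s : X → ℝ≥0∞} (hs : s ∈ S p) {B : Set X} {σ : ℝ≥0∞}
    (hσ : ∀ x ∈ B, s x ≤ σ) {c : ℝ} (hc : 1 ≤ c) (N : ℕ) (z : X →₀ ℕ) :
    mon (fun x => s x ^ c) z ≤ σ ^ c + mon (avoid p B N) z := by
  classical
  have hc0 : 0 ≤ c := by linarith
  have hnot : ∀ z : X →₀ ℕ, ¬ Free B z → mon (fun x => s x ^ c) z ≤ σ ^ c := by
    intro z hz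
    rw [mon_rpow _ _ _ hc0]
    gcongr
    exact mon_le_of_notFree hs.1 hσ hz
  have hle1 : ∀ z : X →₀ ℕ, mon (fun x => s x ^ c) z ≤ 1 := fun z =>
    mon_le_one (fun x => ENNReal.rpow_le_one (hs.1 x) hc0) z
  induction N generalizing z with
  | zero =>
    by_cases hz : Free B z
    · rw [avoid, mon_ind, if_pos hz]
      exact (hle1 z).trans le_add_self
    · exact (hnot z hz).trans le_self_add
  | succ N ih =>
    by_cases hz : Free B z
    · rw [avoid, mon_mul, mon_ind, if_pos hz, one_mul, ← lintegral_mon_nextGen]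
      calc mon (fun x => s x ^ c) z ≤ mon (G p (fun x => s x ^ c)) z := by
            refine mon_mono (fun x => ?_) z
            conv_lhs => rw [hs.2 x]
            exact G_rpow p hc x
        _ = ∫⁻ η, mon (fun x => s x ^ c) (nextGen z η) ∂(env p) := (lintegral_mon_nextGen _ _ _).symm
        _ ≤ ∫⁻ η, (σ ^ c + mon (avoid p B N) (nextGen z η)) ∂(env p) := lintegral_mono fun η => ih _
        _ = σ ^ c + ∫⁻ η, mon (avoid p B N) (nextGen z η) ∂(env p) := by
            rw [lintegral_add_left measurable_const, lintegral_const, measure_univ, mul_one]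
    · exact (hnot z hz).trans le_self_add

theorem barrier_iter (p : X → PMF (X →₀ ℕ)) {a b : X → ℝ≥0∞} {k : ℝ≥0∞}
    (h : ∀ z, mon a z ≤ k + mon b z) (n : ℕ) (z : X →₀ ℕ) :
    mon ((G p)^[n] a) z ≤ k + mon ((G p)^[n] b) z := by
  induction n generalizing z with
  | zero => exact h z
  | succ n ih =>
    rw [Function.iterate_succ', Function.comp, Function.comp, ← lintegral_mon_nextGen,
      ← lintegral_mon_nextGen]
    calc ∫⁻ η, mon ((G p)^[n] a) (nextGen z η) ∂(env p)
        ≤ ∫⁻ η, (k + mon ((G p)^[n] b) (nextGen z η)) ∂(env p) := lintegral_mono fun η => ih _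
      _ = k + ∫⁻ η, mon ((G p)^[n] b) (nextGen z η) ∂(env p) := by
            rw [lintegral_add_left measurable_const, lintegral_const, measure_univ, mul_one]

theorem iter_pow_le (p : X → PMF (X →₀ ℕ)) {s : X → ℝ≥0∞} (hs : s ∈ S p) {B : Set X} {σ : ℝ≥0∞}
    (hσ : ∀ x ∈ B, s x ≤ σ) {c : ℝ} (hc : 1 ≤ c) (n : ℕ) (x : X) :
    (G p)^[n] (fun x => s x ^ c) x ≤ σ ^ c + q p B x := by
  have h1 : ∀ N, (G p)^[n] (fun x => s x ^ c) x ≤ σ ^ c + (G p)^[n] (avoid p B N) x := by
    intro N
    have := barrier_iter p (barrier_zero p hs hσ hc N) n (Finsupp.single x 1)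
    rwa [mon_single, mon_single] at this
  have h2 : Tendsto (fun N => σ ^ c + (G p)^[n] (avoid p B N) x) atTop
      (𝓝 (σ ^ c + (G p)^[n] (never p B) x)) :=
    (iter_tendsto p (avoid_le_one p B) (avoid_tendsto p B) n x).const_add _
  calc (G p)^[n] (fun x => s x ^ c) x ≤ σ ^ c + (G p)^[n] (never p B) x :=
        ge_of_tendsto' h2 h1
    _ ≤ _ := by gcongr; exact iter_never_le_q p B n x

/-- The fixed point `lim_n G^n(s^c)`. -/
noncomputable def powLim (p : X → PMF (X →₀ ℕ)) (s : X → ℝ≥0∞) (c : ℝ) (x : X) : ℝ≥0∞ :=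
  ⨆ n, (G p)^[n] (fun x => s x ^ c) x

theorem pow_iter_mono (p : X → PMF (X →₀ ℕ)) {s : X → ℝ≥0∞} (hs : s ∈ S p) {c : ℝ} (hc : 1 ≤ c)
    (x : X) : Monotone (fun n => (G p)^[n] (fun x => s x ^ c) x) := by
  refine monotone_nat_of_le_succ fun n => ?_
  show (G p)^[n] (fun x => s x ^ c) x ≤ (G p)^[n + 1] (fun x => s x ^ c) x
  rw [Function.iterate_succ, Function.comp]
  refine iter_mono p n (fun y => ?_) x
  conv_lhs => rw [hs.2 y]
  exact G_rpow p hc y

theorem powLim_tendsto (p : X → PMF (X →₀ ℕ)) {s : X → ℝ≥0∞} (hs : s ∈ S p) {c : ℝ} (hc : 1 ≤ c)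
    (x : X) : Tendsto (fun n => (G p)^[n] (fun x => s x ^ c) x) atTop (𝓝 (powLim p s c x)) :=
  tendsto_atTop_iSup (pow_iter_mono p hs hc x)

omit [Countable X] in
theorem iter_fixed (p : X → PMF (X →₀ ℕ)) {s : X → ℝ≥0∞} (hs : s ∈ S p) (n : ℕ) :
    (G p)^[n] s = s := by
  refine Function.iterate_fixed ?_ n
  funext x
  exact (hs.2 x).symm

theorem powLim_mem (p : X → PMF (X →₀ ℕ)) {s : X → ℝ≥0∞} (hs : s ∈ S p) {c : ℝ} (hc : 1 ≤ c) :
    powLim p s c ∈ S p := by
  have h0 : ∀ x, s x ^ c ≤ 1 := fun x => ENNReal.rpow_le_one (hs.1 x) (by linarith)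
  refine ⟨fun x => iSup_le fun n => iter_le_one p n _ h0 x, fun x => ?_⟩
  have h1 : Tendsto (fun n => (G p)^[n + 1] (fun x => s x ^ c) x) atTop (𝓝 (powLim p s c x)) :=
    (powLim_tendsto p hs hc x).comp (tendsto_add_atTop_nat 1)
  have h2 : Tendsto (fun n => (G p)^[n + 1] (fun x => s x ^ c) x) atTop
      (𝓝 (G p (powLim p s c) x)) := by
    simp only [Function.iterate_succ', Function.comp]
    exact G_tendsto p (fun n y => iter_le_one p n _ h0 y) (powLim_tendsto p hs hc) x
  exact tendsto_nhds_unique h1 h2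

omit [Countable X] in
theorem powLim_le (p : X → PMF (X →₀ ℕ)) {s : X → ℝ≥0∞} (hs : s ∈ S p) {c : ℝ} (hc : 1 ≤ c)
    (x : X) : powLim p s c x ≤ s x := by
  refine iSup_le fun n => ?_
  conv_rhs => rw [← iter_fixed p hs n]
  refine iter_mono p n (fun y => ?_) x
  calc s y ^ c ≤ s y ^ (1 : ℝ) := ENNReal.rpow_le_rpow_of_exponent_ge (hs.1 y) hc
    _ = s y := ENNReal.rpow_one _

omit [Countable X] in
theorem le_powLim (p : X → PMF (X →₀ ℕ)) (s : X → ℝ≥0∞) (c : ℝ) (x : X) :
    s x ^ c ≤ powLim p s c x := le_iSup (fun n => (G p)^[n] (fun x => s x ^ c) x) 0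

/-- If `S` is finite then `lim_n G^n(s^c) = s` for some `c > 1`. -/
theorem exists_powLim_eq (p : X → PMF (X →₀ ℕ)) (hfin : (S p).Finite) {s : X → ℝ≥0∞}
    (hs : s ∈ S p) : ∃ c : ℝ, 1 < c ∧ powLim p s c = s := by
  let f : ℕ → X → ℝ≥0∞ := fun m => powLim p s (1 + 1 / ((m : ℝ) + 1))
  have hc : ∀ m : ℕ, 1 < 1 + 1 / ((m : ℝ) + 1) := fun m => by
    have : 0 < 1 / ((m : ℝ) + 1) := by positivity
    linarith
  have hf : ∀ m, f m ∈ S p := fun m => powLim_mem p hs (hc m).le
  obtain ⟨t, ht, hinf⟩ : ∃ t ∈ S p, {m | f m = t}.Infinite := by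
    have : Finite (S p) := hfin
    obtain ⟨t, ht⟩ := Finite.exists_infinite_fiber (fun m => (⟨f m, hf m⟩ : S p))
    refine ⟨t.1, t.2, ?_⟩
    have h2 := Set.infinite_coe_iff.1 ht
    refine h2.mono fun m hm => ?_
    exact congrArg Subtype.val (show (⟨f m, hf m⟩ : S p) = t from hm)
  have hts : t = s := by
    funext x
    refine le_antisymm ?_ ?_
    · obtain ⟨m, hm⟩ := hinf.nonempty
      have : f m = t := hm
      rw [← this]
      exact powLim_le p hs (hc m).le x
    · -- `s x ^ c_m ≤ t x` for infinitely many `m`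
      have h1 : Tendsto (fun m : ℕ => s x ^ (1 + 1 / ((m : ℝ) + 1))) atTop (𝓝 (s x ^ (1 : ℝ))) := by
        have h2 : Tendsto (fun m : ℕ => 1 + 1 / ((m : ℝ) + 1)) atTop (𝓝 (1 + 0)) :=
          tendsto_const_nhds.add tendsto_one_div_add_atTop_nhds_zero_nat
        rw [add_zero] at h2
        have h3 : s x ≠ ∞ := ne_top_of_le_ne_top ENNReal.one_ne_top (hs.1 x)
        have h4 : ContinuousAt (fun y : ℝ => s x ^ y) 1 := by
          lift s x to NNReal using h3 with a
          have h5 : ContinuousAt (fun y : ℝ => (((a ^ y : NNReal)) : ℝ≥0∞)) 1 := by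
            refine ENNReal.continuous_coe.continuousAt.comp ?_
            exact (NNReal.continuousAt_rpow (x := a) (y := 1) (Or.inr one_pos)).comp
              (f := fun y : ℝ => (a, y)) (by fun_prop)
          refine h5.congr ?_
          filter_upwards [lt_mem_nhds (show (0 : ℝ) < 1 by norm_num)] with y hy
          exact ENNReal.coe_rpow_of_nonneg a hy.le
        exact h4.tendsto.comp h2
      rw [ENNReal.rpow_one] at h1
      refine le_of_tendsto_of_frequently h1 ?_
      rw [Nat.frequently_atTop_iff_infinite]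
      refine hinf.mono fun m hm => ?_
      have : f m = t := hm
      show s x ^ (1 + 1 / ((m : ℝ) + 1)) ≤ t x
      rw [← this]
      exact le_powLim p s _ x
  obtain ⟨m, hm⟩ := hinf.nonempty
  exact ⟨1 + 1 / ((m : ℝ) + 1), hc m, (show f m = t from hm).trans hts⟩

end Q287.MG
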