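import Pool.Agent.Q287.MG.Main

set_option autoImplicit false

/-!
# Finitely many fixed points are extinction vectors
-/

open MeasureTheory ProbabilityTheory Filter Topology
open scoped ENNReal

namespace Q287.MG

variable {X : Type*} [Countable X]

section Two

variable (p : X → PMF (X →₀ ℕ)) {s s' : X → ℝ≥0∞} (hs : s ∈ S p) (hs' : s' ∈ S p)
  (hle : ∀ x, s x ≤ s' x) (F : Set X)

/-- The truncated system with boundary value `s' = q(B)`, where `B` contains all `x ∈ F` with
`s x < 1`, started from `s`, converges to `s'`. -/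
theorem sol_top {B : Set X} (hs : s ∈ S p) (hle : ∀ x, s x ≤ q p B x)
    (hB : ∀ x ∈ F, x ∉ B → s x = 1) (x : X) : sol p F s (q p B) x = q p B x := by
  have hs' := q_mem_S p B
  refine le_antisymm (sol_le p hs' hle F (fun _ => le_rfl) x) ?_
  set e := sol p F s (q p B) with he
  -- `e ≥ never p B`
  have h1 : ∀ n y, never p B y ≤ (T p F (q p B))^[n + 1] s y := by
    intro n
    induction n with
    | zero =>
      intro y
      rw [Function.iterate_one]
      by_cases hy : y ∈ F
      · rw [T_in p _ _ hy, ← hs.2 y]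
        by_cases hyB : y ∈ B
        · rw [never_eq_zero p hyB]; exact zero_le
        · rw [hB y hy hyB]; exact never_le_one p B y
      · rw [T_out p _ _ hy]; exact never_le_q p B y
    | succ n ih =>
      intro y
      rw [Function.iterate_succ', Function.comp]
      by_cases hy : y ∈ F
      · rw [T_in p _ _ hy]
        exact (never_le_G p B y).trans (G_mono p ih y)
      · rw [T_out p _ _ hy]; exact never_le_q p B y
  have h2 : ∀ y, never p B y ≤ e y := fun y =>
    (h1 0 y).trans (le_iSup (fun n => (T p F (q p B))^[n] s y) 1)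
  -- `G e ≤ e`
  have h3 : ∀ y, G p e y ≤ e y := by
    intro y
    by_cases hy : y ∈ F
    · have := sol_eq p hs hs' F hle (fun _ => le_rfl) y
      rw [T_in p _ _ hy] at this
      rw [he]; exact this.ge
    · have h4 := sol_eq p hs hs' F hle (fun _ => le_rfl) y
      rw [T_out p _ _ hy] at h4
      rw [← he] at h4
      rw [h4, hs'.2 y]
      exact G_mono p (fun z => sol_le p hs' hle F (fun _ => le_rfl) z) y
  have h4 : ∀ n y, (G p)^[n] (never p B) y ≤ e y := by
    intro n
    induction n with
    | zero => exact h2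
    | succ n ih =>
      intro y
      rw [Function.iterate_succ', Function.comp]
      exact (G_mono p ih y).trans (h3 y)
  exact le_of_tendsto' (q_tendsto p B x) fun n => h4 n x

/-- Clamp to `[0,1]`. -/
noncomputable def cl (c : ℝ) : ℝ := max 0 (min c 1)

theorem cl_cont : Continuous cl := by unfold cl; fun_prop
theorem cl_nonneg (c : ℝ) : 0 ≤ cl c := le_max_left _ _
theorem cl_le (c : ℝ) : cl c ≤ 1 := max_le (by norm_num) (min_le_right _ _)
theorem cl_zero : cl 0 = 0 := by simp [cl]
theorem cl_one : cl 1 = 1 := by simp [cl]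

/-- The boundary values `(1 - c) s' + c s`. -/
noncomputable def bd (s s' : X → ℝ≥0∞) (c : ℝ) (x : X) : ℝ≥0∞ :=
  ENNReal.ofReal (1 - cl c) * s' x + ENNReal.ofReal (cl c) * s x

theorem weights (c : ℝ) : ENNReal.ofReal (1 - cl c) + ENNReal.ofReal (cl c) = 1 := by
  rw [← ENNReal.ofReal_add (by linarith [cl_le c]) (cl_nonneg c)]
  simp

omit [Countable X] in
include hle in
theorem le_bd (c : ℝ) (x : X) : s x ≤ bd s s' c x := by
  calc s x = (ENNReal.ofReal (1 - cl c) + ENNReal.ofReal (cl c)) * s x := by rw [weights, one_mul]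
    _ = ENNReal.ofReal (1 - cl c) * s x + ENNReal.ofReal (cl c) * s x := add_mul _ _ _
    _ ≤ _ := by unfold bd; gcongr; exact hle x

omit [Countable X] in
include hle in
theorem bd_le (c : ℝ) (x : X) : bd s s' c x ≤ s' x := by
  calc bd s s' c x ≤ ENNReal.ofReal (1 - cl c) * s' x + ENNReal.ofReal (cl c) * s' x := by
        unfold bd; gcongr; exact hle x
    _ = (ENNReal.ofReal (1 - cl c) + ENNReal.ofReal (cl c)) * s' x := (add_mul _ _ _).symm
    _ = s' x := by rw [weights, one_mul]

omit [Countable X] in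
include hs hs' in
theorem bd_cont (x : X) : Continuous (fun c => bd s s' c x) := by
  have h1 : s x ≠ ∞ := ne_top_of_le_ne_top ENNReal.one_ne_top (hs.1 x)
  have h2 : s' x ≠ ∞ := ne_top_of_le_ne_top ENNReal.one_ne_top (hs'.1 x)
  unfold bd
  refine Continuous.add ?_ ?_
  · exact ENNReal.continuous_mul_const h2 |>.comp (ENNReal.continuous_ofReal.comp (by
      have := cl_cont; fun_prop))
  · exact ENNReal.continuous_mul_const h1 |>.comp (ENNReal.continuous_ofReal.comp cl_cont)

include hs hs' hle in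
theorem iter_cont {t : X → ℝ≥0∞} (ht : ∀ x, t x ≤ 1) (n : ℕ) (x : X) :
    Continuous (fun c => (T p F (bd s s' c))^[n] t x) := by
  have hb1 : ∀ c x, bd s s' c x ≤ 1 := fun c x => (bd_le hle c x).trans (hs'.1 x)
  induction n generalizing x with
  | zero => exact continuous_const
  | succ n ih =>
    rw [continuous_iff_continuousAt]
    intro c
    simp only [Function.iterate_succ', Function.comp]
    exact T_tendsto p F (fun i y => Titer_le_one p F (hb1 i) ht n y)
      (fun y => (bd_cont p hs hs' y).tendsto c) (fun y => (ih y).tendsto c) x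

include hs hs' hle in
theorem sol_cont (hU : ∀ x, sol p F s s' x = s' x) (x : X) :
    Continuous (fun c => sol p F s (bd s s' c) x) := by
  rw [continuous_iff_lower_upperSemicontinuous]
  constructor
  · exact lowerSemicontinuous_iSup fun n => (iter_cont p hs hs' hle F hs.1 n x).lowerSemicontinuous
  · have h1 : (fun c => sol p F s (bd s s' c) x) =
        fun c => ⨅ n, (T p F (bd s s' c))^[n] s' x := by
      funext c
      exact (up_tendsto p hs hs' hle F (le_bd hle c) (bd_le hle c) hU x).symm
    rw [h1]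
    exact upperSemicontinuous_iInf fun n =>
      (iter_cont p hs hs' hle F hs'.1 n x).upperSemicontinuous

include hs hs' hle in
/-- Intermediate values of solutions of the truncated system. -/
theorem exists_sol (hU : ∀ x, sol p F s s' x = s' x) (o : X) {v : ℝ≥0∞} (hv1 : s o ≤ v)
    (hv2 : v ≤ s' o) :
    ∃ t : X → ℝ≥0∞, (∀ x, t x ≤ 1) ∧ (∀ x ∈ F, t x = G p t x) ∧ t o = v := by
  have h0 : sol p F s (bd s s' 0) o = s' o := by
    have : bd s s' 0 = s' := by funext x; simp [bd, cl_zero]
    rw [this]; exact hU o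
  have h1 : sol p F s (bd s s' 1) o = s o := by
    have : bd s s' 1 = s := by funext x; simp [bd, cl_one]
    rw [this]
    refine le_antisymm (sol_le p hs (fun _ => le_rfl) F (fun _ => le_rfl) o) ?_
    exact le_iSup (fun n => (T p F s)^[n] s o) 0
  have h2 := intermediate_value_Icc' (show (0 : ℝ) ≤ 1 by norm_num)
    (sol_cont p hs hs' hle F hU o).continuousOn
  rw [h0, h1] at h2
  obtain ⟨c, _, hc⟩ := h2 ⟨hv1, hv2⟩
  refine ⟨sol p F s (bd s s' c), fun x => ?_, fun x hx => ?_, hc⟩
  · exact (sol_le p hs' hle F (bd_le hle c) x).trans (hs'.1 x)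
  · have h3 := sol_eq p hs hs' F (le_bd hle c) (bd_le hle c) x
    rw [T_in p _ _ hx] at h3
    exact h3

end Two

/-- Intermediate values of fixed points. -/
theorem exists_fixed (p : X → PMF (X →₀ ℕ)) (o : X) (v : ℝ≥0∞)
    (h : ∀ F : Set X, F.Finite → ∃ t : X → ℝ≥0∞, (∀ x, t x ≤ 1) ∧ (∀ x ∈ F, t x = G p t x) ∧
      t o = v) : ∃ t ∈ S p, t o = v := by
  obtain ⟨e, he⟩ := exists_injective_nat X
  have hF : ∀ k : ℕ, (e ⁻¹' (Set.Iic k)).Finite := fun k =>
    (Set.finite_Iic k).preimage he.injOn
  choose t ht1 ht2 ht3 using fun k => h _ (hF k)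
  obtain ⟨a, _, φ, hφ, ha⟩ := isCompact_univ.tendsto_subseq (x := t) (fun n => Set.mem_univ _)
  rw [tendsto_pi_nhds] at ha
  refine ⟨a, ⟨fun x => le_of_tendsto' (ha x) fun k => ht1 _ x, fun x => ?_⟩, ?_⟩
  · have h1 : Tendsto (fun k => G p (t (φ k)) x) atTop (𝓝 (G p a x)) :=
      G_tendsto p (fun k => ht1 (φ k)) ha x
    have h2 : (fun k => (t ∘ φ) k x) =ᶠ[atTop] (fun k => G p (t (φ k)) x) := by
      filter_upwards [eventually_ge_atTop (e x)] with k hk
      refine ht2 (φ k) x ?_
      exact hk.trans (hφ.id_le k)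
    exact tendsto_nhds_unique ((ha x).congr' h2) h1
  · have h3 : Tendsto (fun k => (t ∘ φ) k o) atTop (𝓝 v) := by
      refine tendsto_const_nhds.congr fun k => ?_
      exact (ht3 (φ k)).symm
    exact tendsto_nhds_unique (ha o) h3

/-- If `S` is finite then every `s ∈ S` is the extinction vector of a finite set of types. -/
theorem eq_q_finite (p : X → PMF (X →₀ ℕ)) (hfin : (S p).Finite) {s : X → ℝ≥0∞} (hs : s ∈ S p) :
    ∃ B : Finset X, (∀ x ∈ B, s x < 1) ∧ s = q p (B : Set X) := by
  classical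
  -- choose `B` with `q(B)` minimal
  let W : Set (X → ℝ≥0∞) := {t | ∃ B : Finset X, (∀ x ∈ B, s x < 1) ∧ t = q p (B : Set X)}
  have hW : W.Finite := hfin.subset (by rintro t ⟨B, _, rfl⟩; exact q_mem_S p _)
  have hW0 : W.Nonempty := ⟨_, ∅, by simp, rfl⟩
  obtain ⟨s', hs'W, hmin⟩ := hW.exists_minimal hW0
  obtain ⟨B0, hB0, rfl⟩ := hs'W
  refine ⟨B0, hB0, ?_⟩
  have hle : ∀ x, s x ≤ q p (B0 : Set X) x := le_q p hfin hs B0 hB0
  by_contra hne
  have ⟨o, ho⟩ : ∃ o, s o ≠ q p (B0 : Set X) o := by
    by_contra hcon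
    push Not at hcon
    exact hne (funext hcon)
  have hlt : s o < q p (B0 : Set X) o := lt_of_le_of_ne (hle o) ho
  have hkey : ∀ v, s o ≤ v → v ≤ q p (B0 : Set X) o → ∃ t ∈ S p, t o = v := by
    intro v hv1 hv2
    refine exists_fixed p o v fun F hF => ?_
    -- enlarge `B0` by the elements of `F` with `s x < 1`
    let B : Finset X := B0 ∪ hF.toFinset.filter (fun x => s x < 1)
    have hB : ∀ x ∈ B, s x < 1 := by
      intro x hx
      rcases Finset.mem_union.1 hx with hx | hx
      · exact hB0 x hx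
      · exact (Finset.mem_filter.1 hx).2
    have hBq : q p (B : Set X) = q p (B0 : Set X) := by
      have h1 : q p (B : Set X) ≤ q p (B0 : Set X) := fun x =>
        q_anti p (by exact_mod_cast Finset.subset_union_left) x
      exact le_antisymm h1 (hmin ⟨B, hB, rfl⟩ h1)
    rw [← hBq] at hv2
    have hle' : ∀ x, s x ≤ q p (B : Set X) x := le_q p hfin hs B hB
    refine exists_sol p hs (q_mem_S p _) hle' F (sol_top p F hs hle' ?_) o hv1 hv2
    intro x hx hxB
    by_contra hcon
    apply hxB
    have h2 : s x < 1 := lt_of_le_of_ne (hs.1 x) hcon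
    simp only [B, Finset.coe_union, Set.mem_union, Finset.mem_coe, Finset.mem_filter]
    exact Or.inr ⟨hF.mem_toFinset.2 hx, h2⟩
  have hinf : (Set.Icc (s o) (q p (B0 : Set X) o)).Infinite := Set.Icc_infinite hlt
  refine hinf (Set.Finite.subset (hfin.image fun t => t o) ?_)
  intro v hv
  obtain ⟨t, ht, hto⟩ := hkey v hv.1 hv.2
  exact ⟨t, ht, hto⟩

theorem S_eq_Ext (p : X → PMF (X →₀ ℕ)) (hfin : (S p).Finite) : S p = Ext p := by
  apply Set.Subset.antisymm
  · intro s hs
    obtain ⟨B, _, hB⟩ := eq_q_finite p hfin hs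
    exact ⟨_, hB⟩
  · rintro s ⟨A, rfl⟩
    exact q_mem_S p A

end Q287.MG
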