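import Pool.Agent.Q287.MG.Ext

set_option autoImplicit false

/-!
# If `S` is finite then every fixed point is the extinction vector of a finite set of types
-/

open MeasureTheory ProbabilityTheory Filter Topology
open scoped ENNReal

namespace Q287.MG

variable {X : Type*} [Countable X]

/-! ### The bound `s ≤ q(B)` -/

theorem iter_rpow (p : X → PMF (X →₀ ℕ)) {c : ℝ} (hc : 1 ≤ c) (n : ℕ) (t : X → ℝ≥0∞) (x : X) :
    ((G p)^[n] t x) ^ c ≤ (G p)^[n] (fun y => t y ^ c) x := by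
  induction n generalizing x with
  | zero => exact le_rfl
  | succ n ih =>
    rw [Function.iterate_succ', Function.comp, Function.comp]
    exact (G_rpow p hc x).trans (G_mono p ih x)

theorem powLim_all (p : X → PMF (X →₀ ℕ)) {s : X → ℝ≥0∞} (hs : s ∈ S p) {c : ℝ} (hc : 1 < c)
    (h : powLim p s c = s) (k : ℕ) (x : X) : s x ≤ powLim p s (c ^ k) x := by
  induction k generalizing x with
  | zero =>
    rw [pow_zero]
    have := le_powLim p s 1 x
    rwa [ENNReal.rpow_one] at this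
  | succ k ih =>
    have hck : 1 ≤ c ^ k := one_le_pow₀ hc.le
    have hck' : 1 ≤ c ^ (k + 1) := one_le_pow₀ hc.le
    have h1 : ∀ y, s y ^ c ≤ powLim p s (c ^ (k + 1)) y := by
      intro y
      have h2 : Tendsto (fun n => ((G p)^[n] (fun y => s y ^ (c ^ k)) y) ^ c) atTop
          (𝓝 (powLim p s (c ^ k) y ^ c)) :=
        (powLim_tendsto p hs hck y).ennrpow_const c
      have h3 : powLim p s (c ^ k) y ^ c ≤ powLim p s (c ^ (k + 1)) y := by
        refine le_of_tendsto_of_tendsto' h2 (powLim_tendsto p hs hck' y) fun n => ?_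
        refine (iter_rpow p hc.le n _ y).trans (le_of_eq ?_)
        refine congrFun (congrArg _ (funext fun z => ?_)) y
        rw [← ENNReal.rpow_mul, pow_succ]
      exact (ENNReal.rpow_le_rpow (ih y) (by linarith)).trans h3
    have h4 : ∀ n, (G p)^[n] (fun y => s y ^ c) x ≤ powLim p s (c ^ (k + 1)) x := by
      intro n
      conv_rhs => rw [← iter_fixed p (powLim_mem p hs hck') n]
      exact iter_mono p n h1 x
    have h5 : powLim p s c x ≤ powLim p s (c ^ (k + 1)) x := iSup_le h4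
    rwa [h] at h5

theorem le_q (p : X → PMF (X →₀ ℕ)) (hfin : (S p).Finite) {s : X → ℝ≥0∞} (hs : s ∈ S p)
    (B : Finset X) (hB : ∀ x ∈ B, s x < 1) (x : X) : s x ≤ q p (B : Set X) x := by
  obtain ⟨c, hc, hcs⟩ := exists_powLim_eq p hfin hs
  set σ : ℝ≥0∞ := B.sup s with hσ
  have hσ1 : σ < 1 := (Finset.sup_lt_iff (by simp)).2 hB
  have hσ2 : ∀ y ∈ (B : Set X), s y ≤ σ := fun y hy => Finset.le_sup (f := s) hy
  have h1 : ∀ k : ℕ, s x ≤ σ ^ (c ^ k) + q p (B : Set X) x := by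
    intro k
    refine (powLim_all p hs hc hcs k x).trans (iSup_le fun n => ?_)
    exact iter_pow_le p hs hσ2 (one_le_pow₀ hc.le) n x
  have h2 : ∀ M : ℕ, s x ≤ σ ^ M + q p (B : Set X) x := by
    intro M
    obtain ⟨k, hk⟩ := pow_unbounded_of_one_lt (M : ℝ) hc
    refine (h1 k).trans ?_
    gcongr
    rw [← ENNReal.rpow_natCast]
    exact ENNReal.rpow_le_rpow_of_exponent_ge hσ1.le hk.le
  have h3 : Tendsto (fun M : ℕ => σ ^ M + q p (B : Set X) x) atTop (𝓝 (0 + q p (B : Set X) x)) :=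
    (ENNReal.tendsto_pow_atTop_nhds_zero_of_lt_one hσ1).add_const _
  rw [zero_add] at h3
  exact ge_of_tendsto' h3 h2

/-! ### Domination -/

/-- `a - a' ≤ r - r'` and `a' ≤ r'`. -/
def Dom (a' a r' r : ℝ≥0∞) : Prop := a' ≤ r' ∧ ∃ α δ, α ≤ δ ∧ a = a' + α ∧ r = r' + δ

theorem Dom.one : Dom 1 1 1 1 := ⟨le_rfl, 0, 0, le_rfl, by simp, by simp⟩

theorem Dom.mul {a' a r' r b' b t' t : ℝ≥0∞} (h1 : Dom a' a r' r) (h2 : Dom b' b t' t) :
    Dom (a' * b') (a * b) (r' * t') (r * t) := by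
  obtain ⟨h1, α, δ, h3, rfl, rfl⟩ := h1
  obtain ⟨h2, β, ε, h4, rfl, rfl⟩ := h2
  refine ⟨mul_le_mul' h1 h2, a' * β + α * b' + α * β, r' * ε + δ * t' + δ * ε, ?_, by ring, by ring⟩
  gcongr

theorem Dom.pow {a' a r' r : ℝ≥0∞} (h : Dom a' a r' r) (n : ℕ) :
    Dom (a' ^ n) (a ^ n) (r' ^ n) (r ^ n) := by
  induction n with
  | zero => simpa using Dom.one
  | succ n ih => simpa only [pow_succ] using ih.mul h

omit [Countable X] in
theorem Dom.mon {a' a r' r : X → ℝ≥0∞} (h : ∀ x, Dom (a' x) (a x) (r' x) (r x)) (z : X →₀ ℕ) :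
    Dom (mon a' z) (mon a z) (mon r' z) (mon r z) := by
  classical
  unfold MG.mon Finsupp.prod
  generalize z.support = t
  induction t using Finset.induction_on with
  | empty => simpa using Dom.one
  | insert y t hy ih =>
    simp only [Finset.prod_insert hy]
    exact ((h y).pow _).mul ih

omit [Countable X] in
theorem Dom.G (p : X → PMF (X →₀ ℕ)) {a' a r' r : X → ℝ≥0∞}
    (h : ∀ x, Dom (a' x) (a x) (r' x) (r x)) (x : X) :
    Dom (G p a' x) (G p a x) (G p r' x) (G p r x) := by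
  have h1 := fun z => Dom.mon h z
  refine ⟨G_mono p (fun x => (h x).1) x, ?_⟩
  choose h0 α δ h2 h3 h4 using h1
  refine ⟨∑' z, p x z * α z, ∑' z, p x z * δ z, ?_, ?_, ?_⟩
  · gcongr with z; exact h2 z
  · have h5 : MG.G p a x = ∑' z, p x z * MG.mon a z := rfl
    have h6 : MG.G p a' x = ∑' z, p x z * MG.mon a' z := rfl
    rw [h5, h6, ← ENNReal.tsum_add]
    refine tsum_congr fun z => ?_
    rw [h3 z, mul_add]
  · have h5 : MG.G p r x = ∑' z, p x z * MG.mon r z := rfl
    have h6 : MG.G p r' x = ∑' z, p x z * MG.mon r' z := rfl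
    rw [h5, h6, ← ENNReal.tsum_add]
    refine tsum_congr fun z => ?_
    rw [h4 z, mul_add]

/-! ### The truncated system -/

open Classical in
/-- Apply `G` inside `F`, keep the boundary value `b` outside `F`. -/
noncomputable def T (p : X → PMF (X →₀ ℕ)) (F : Set X) (b t : X → ℝ≥0∞) (x : X) : ℝ≥0∞ :=
  if x ∈ F then G p t x else b x

omit [Countable X] in
theorem T_in (p : X → PMF (X →₀ ℕ)) {F : Set X} (b t : X → ℝ≥0∞) {x : X} (hx : x ∈ F) :
    T p F b t x = G p t x := by simp [T, hx]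

omit [Countable X] in
theorem T_out (p : X → PMF (X →₀ ℕ)) {F : Set X} (b t : X → ℝ≥0∞) {x : X} (hx : x ∉ F) :
    T p F b t x = b x := by simp [T, hx]

omit [Countable X] in
theorem T_mono (p : X → PMF (X →₀ ℕ)) (F : Set X) {b b' t t' : X → ℝ≥0∞} (hb : ∀ x, b x ≤ b' x)
    (ht : ∀ x, t x ≤ t' x) (x : X) : T p F b t x ≤ T p F b' t' x := by
  by_cases hx : x ∈ F
  · rw [T_in p b t hx, T_in p b' t' hx]; exact G_mono p ht x
  · rw [T_out p b t hx, T_out p b' t' hx]; exact hb x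

theorem Titer_mono (p : X → PMF (X →₀ ℕ)) (F : Set X) {b b' t t' : X → ℝ≥0∞}
    (hb : ∀ x, b x ≤ b' x) (ht : ∀ x, t x ≤ t' x) (n : ℕ) (x : X) :
    (T p F b)^[n] t x ≤ (T p F b')^[n] t' x := by
  induction n generalizing x with
  | zero => exact ht x
  | succ n ih =>
    rw [Function.iterate_succ', Function.iterate_succ', Function.comp, Function.comp]
    exact T_mono p F hb ih x

omit [Countable X] in
theorem T_le_one (p : X → PMF (X →₀ ℕ)) (F : Set X) {b t : X → ℝ≥0∞} (hb : ∀ x, b x ≤ 1)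
    (ht : ∀ x, t x ≤ 1) (x : X) : T p F b t x ≤ 1 := by
  by_cases hx : x ∈ F
  · rw [T_in p b t hx]; exact G_le_one p ht x
  · rw [T_out p b t hx]; exact hb x

theorem Titer_le_one (p : X → PMF (X →₀ ℕ)) (F : Set X) {b t : X → ℝ≥0∞} (hb : ∀ x, b x ≤ 1)
    (ht : ∀ x, t x ≤ 1) (n : ℕ) (x : X) : (T p F b)^[n] t x ≤ 1 := by
  induction n generalizing x with
  | zero => exact ht x
  | succ n ih =>
    rw [Function.iterate_succ', Function.comp]
    exact T_le_one p F hb ih x

theorem T_tendsto (p : X → PMF (X →₀ ℕ)) (F : Set X) {ι : Type*} {l : Filter ι}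
    [l.IsCountablyGenerated] [l.NeBot] {b t : ι → X → ℝ≥0∞} {b' t' : X → ℝ≥0∞}
    (ht1 : ∀ i x, t i x ≤ 1)
    (hb : ∀ x, Tendsto (fun i => b i x) l (𝓝 (b' x)))
    (ht : ∀ x, Tendsto (fun i => t i x) l (𝓝 (t' x))) (x : X) :
    Tendsto (fun i => T p F (b i) (t i) x) l (𝓝 (T p F b' t' x)) := by
  by_cases hx : x ∈ F
  · simp only [T_in p _ _ hx]; exact G_tendsto p ht1 ht x
  · simp only [T_out p _ _ hx]; exact hb x

section Two

variable (p : X → PMF (X →₀ ℕ)) {s s' : X → ℝ≥0∞} (hs : s ∈ S p) (hs' : s' ∈ S p)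
  (hle : ∀ x, s x ≤ s' x) (F : Set X)

include hs in
theorem low_mono {b : X → ℝ≥0∞} (hb : ∀ x, s x ≤ b x) (x : X) :
    Monotone (fun n => (T p F b)^[n] s x) := by
  refine monotone_nat_of_le_succ fun n => ?_
  show (T p F b)^[n] s x ≤ (T p F b)^[n + 1] s x
  rw [Function.iterate_succ, Function.comp]
  refine Titer_mono p F (fun _ => le_rfl) (fun y => ?_) n x
  by_cases hy : y ∈ F
  · rw [T_in p _ _ hy]; exact (hs.2 y).le
  · rw [T_out p _ _ hy]; exact hb y

include hs' in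
theorem up_anti {b : X → ℝ≥0∞} (hb : ∀ x, b x ≤ s' x) (x : X) :
    Antitone (fun n => (T p F b)^[n] s' x) := by
  refine antitone_nat_of_succ_le fun n => ?_
  show (T p F b)^[n + 1] s' x ≤ (T p F b)^[n] s' x
  rw [Function.iterate_succ, Function.comp]
  refine Titer_mono p F (fun _ => le_rfl) (fun y => ?_) n x
  by_cases hy : y ∈ F
  · rw [T_in p _ _ hy]; exact (hs'.2 y).ge
  · rw [T_out p _ _ hy]; exact hb y

omit [Countable X] in
include hs' in
theorem T_self : T p F s' s' = s' := by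
  funext x
  by_cases hx : x ∈ F
  · rw [T_in p _ _ hx]; exact (hs'.2 x).symm
  · rw [T_out p _ _ hx]

include hle in
theorem dom_iter {b : X → ℝ≥0∞} (hb : ∀ x, b x ≤ s' x) (n : ℕ) (x : X) :
    Dom ((T p F b)^[n] s x) ((T p F b)^[n] s' x) ((T p F s')^[n] s x) ((T p F s')^[n] s' x) := by
  induction n generalizing x with
  | zero =>
    exact ⟨le_rfl, s' x - s x, s' x - s x, le_rfl, (add_tsub_cancel_of_le (hle x)).symm,
      (add_tsub_cancel_of_le (hle x)).symm⟩
  | succ n ih =>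
    simp only [Function.iterate_succ', Function.comp]
    by_cases hx : x ∈ F
    · rw [T_in p _ _ hx, T_in p _ _ hx, T_in p _ _ hx, T_in p _ _ hx]
      exact Dom.G p ih x
    · rw [T_out p _ _ hx, T_out p _ _ hx, T_out p _ _ hx, T_out p _ _ hx]
      exact ⟨hb x, 0, 0, le_rfl, by simp, by simp⟩

/-- The solution of the truncated system with boundary value `b`. -/
noncomputable def sol (s b : X → ℝ≥0∞) (x : X) : ℝ≥0∞ := ⨆ n, (T p F b)^[n] s x

include hs in
theorem sol_tendsto {b : X → ℝ≥0∞} (hb : ∀ x, s x ≤ b x) (x : X) :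
    Tendsto (fun n => (T p F b)^[n] s x) atTop (𝓝 (sol p F s b x)) :=
  tendsto_atTop_iSup (low_mono p hs F hb x)

include hs hs' hle in
theorem up_tendsto {b : X → ℝ≥0∞} (hb : ∀ x, s x ≤ b x) (hb' : ∀ x, b x ≤ s' x)
    (hU : ∀ x, sol p F s s' x = s' x) (x : X) :
    (⨅ n, (T p F b)^[n] s' x) = sol p F s b x := by
  have h1 : Tendsto (fun n => (T p F b)^[n] s' x) atTop (𝓝 (⨅ n, (T p F b)^[n] s' x)) :=
    tendsto_atTop_iInf (up_anti p hs' F hb' x)
  have h2 := sol_tendsto p hs F hb x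
  have h3 := sol_tendsto p hs F hle x
  rw [hU x] at h3
  have hfin : s' x ≠ ∞ := ne_top_of_le_ne_top ENNReal.one_ne_top (hs'.1 x)
  refine le_antisymm ?_ ?_
  · have h4 : (⨅ n, (T p F b)^[n] s' x) + s' x ≤ s' x + sol p F s b x := by
      refine le_of_tendsto_of_tendsto' (h1.add h3) (tendsto_const_nhds.add h2) fun n => ?_
      obtain ⟨h5, α, δ, h6, h7, h8⟩ := dom_iter p hle F hb' n x
      rw [Function.iterate_fixed (T_self p hs' F)] at h8
      rw [h7]
      conv_rhs => rw [h8]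
      calc (T p F b)^[n] s x + α + (T p F s')^[n] s x
          ≤ (T p F b)^[n] s x + δ + (T p F s')^[n] s x := by gcongr
        _ = _ := by ring
    rw [add_comm] at h4
    exact (ENNReal.add_le_add_iff_left hfin).1 h4
  · refine le_of_tendsto_of_tendsto' h2 h1 fun n => ?_
    exact Titer_mono p F (fun _ => le_rfl) hle n x

include hs hs' in
theorem sol_eq {b : X → ℝ≥0∞} (hb : ∀ x, s x ≤ b x) (hb' : ∀ x, b x ≤ s' x) (x : X) :
    sol p F s b x = T p F b (sol p F s b) x := by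
  have h1 : Tendsto (fun n => (T p F b)^[n + 1] s x) atTop (𝓝 (sol p F s b x)) :=
    (sol_tendsto p hs F hb x).comp (tendsto_add_atTop_nat 1)
  have h2 : Tendsto (fun n => (T p F b)^[n + 1] s x) atTop (𝓝 (T p F b (sol p F s b) x)) := by
    simp only [Function.iterate_succ', Function.comp]
    exact T_tendsto p F (fun n y => Titer_le_one p F (fun x => (hb' x).trans (hs'.1 x)) hs.1 n y)
      (fun _ => tendsto_const_nhds) (sol_tendsto p hs F hb) x
  exact tendsto_nhds_unique h1 h2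

include hs' hle in
theorem sol_le {b : X → ℝ≥0∞} (hb' : ∀ x, b x ≤ s' x) (x : X) :
    sol p F s b x ≤ s' x := by
  refine iSup_le fun n => ?_
  have h1 := Titer_mono p F hb' hle n x
  rwa [Function.iterate_fixed (T_self p hs' F)] at h1

end Two

end Q287.MG
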