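import Pool.Agent.Q287.MG.Basic

set_option autoImplicit false

/-!
# Multitype Galton–Watson branching processes: extinction probabilities and iterates of `G`
-/

open MeasureTheory ProbabilityTheory Filter Topology
open scoped ENNReal

namespace Q287.MG

/-! ### The shift on a countable product -/

section Shift

variable {α : Type*} [MeasurableSpace α]

/-- Put `η` in front of the sequence `ω`. -/
def cons (η : α) (ω : ℕ → α) : ℕ → α
  | 0 => η
  | n + 1 => ω n

theorem measurable_cons : Measurable (fun p : α × (ℕ → α) => cons p.1 p.2) := by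
  rw [measurable_pi_iff]
  intro n
  cases n with
  | zero => exact measurable_fst
  | succ n => exact (measurable_pi_apply n).comp measurable_snd

theorem map_cons (ρ : Measure α) [IsProbabilityMeasure ρ] :
    (ρ.prod (Measure.infinitePi fun _ : ℕ => ρ)).map (fun p : α × (ℕ → α) => cons p.1 p.2) =
      Measure.infinitePi fun _ : ℕ => ρ := by
  refine Measure.eq_infinitePi _ ?_
  classical
  intro s t ht
  obtain ⟨N, hN⟩ : ∃ N, s ⊆ Finset.range (N + 1) := by
    refine ⟨s.sup id, fun i hi => ?_⟩
    rw [Finset.mem_range]
    exact Nat.lt_succ_of_le (Finset.le_sup (f := id) hi)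
  let t' : ℕ → Set α := fun i => if i ∈ s then t i else Set.univ
  have ht' : ∀ i, MeasurableSet (t' i) := by
    intro i
    by_cases h : i ∈ s
    · simp only [t', if_pos h]; exact ht i
    · simp only [t', if_neg h]; exact MeasurableSet.univ
  have h1 : Set.pi (s : Set ℕ) t = Set.pi ((Finset.range (N + 1) : Finset ℕ) : Set ℕ) t' := by
    ext ω
    simp only [Set.mem_pi, Finset.mem_coe, t']
    constructor
    · intro h i _
      by_cases hi : i ∈ s
      · rw [if_pos hi]; exact h i hi
      · rw [if_neg hi]; trivial
    · intro h i hi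
      have := h i (hN hi)
      rwa [if_pos hi] at this
  have h2 : ∏ i ∈ s, ρ (t i) = ∏ i ∈ Finset.range (N + 1), ρ (t' i) := by
    rw [← Finset.prod_subset hN]
    · refine Finset.prod_congr rfl fun i hi => ?_
      simp only [t', if_pos hi]
    · intro i _ hi
      simp only [t', if_neg hi, measure_univ]
  rw [h1, h2, Measure.map_apply measurable_cons
    (MeasurableSet.pi (Finset.countable_toSet _) fun i _ => ht' i)]
  have h3 : (fun p : α × (ℕ → α) => cons p.1 p.2) ⁻¹'
      (Set.pi ((Finset.range (N + 1) : Finset ℕ) : Set ℕ) t') =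
      (t' 0) ×ˢ (Set.pi ((Finset.range N : Finset ℕ) : Set ℕ) (fun i => t' (i + 1))) := by
    ext ⟨η, ω⟩
    simp only [Set.mem_preimage, Set.mem_pi, Finset.coe_range, Set.mem_Iio, Set.mem_prod]
    constructor
    · intro h
      exact ⟨h 0 (by omega), fun i hi => h (i + 1) (by omega)⟩
    · rintro ⟨h4, h5⟩ i hi
      cases i with
      | zero => exact h4
      | succ i => exact h5 i (by omega)
  rw [h3, Measure.prod_prod, Measure.infinitePi_pi _ (fun i _ => ht' (i + 1)),
    Finset.prod_range_succ', mul_comm]

theorem measure_cons (ρ : Measure α) [IsProbabilityMeasure ρ] {D : Set (ℕ → α)}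
    (hD : MeasurableSet D) :
    (Measure.infinitePi fun _ : ℕ => ρ) D =
      ∫⁻ η, (Measure.infinitePi fun _ : ℕ => ρ) {ω | cons η ω ∈ D} ∂ρ := by
  conv_lhs => rw [← map_cons ρ]
  rw [Measure.map_apply measurable_cons hD, Measure.prod_apply (measurable_cons hD)]
  rfl

end Shift

variable {X : Type*} [Countable X]

/-- The law of the offspring variables of one generation. -/
noncomputable def env (p : X → PMF (X →₀ ℕ)) : Measure (X → ℕ → X →₀ ℕ) :=
  Measure.infinitePi fun y => Measure.infinitePi fun _ => (p y).toMeasure

instance (p : X → PMF (X →₀ ℕ)) : IsProbabilityMeasure (env p) := by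
  unfold env; infer_instance

omit [Countable X] in
theorem law_eq (p : X → PMF (X →₀ ℕ)) : law p = Measure.infinitePi fun _ : ℕ => env p := rfl

instance (p : X → PMF (X →₀ ℕ)) : IsProbabilityMeasure (law p) := by
  rw [law_eq]; infer_instance

instance : MeasurableAdd₂ (X →₀ ℕ) := ⟨measurable_of_countable _⟩

theorem measurable_nextGen_right (z : X →₀ ℕ) : Measurable (nextGen z) := by
  unfold nextGen Finsupp.sum
  refine Finset.measurable_fun_sum _ fun y _ => Finset.measurable_fun_sum _ fun i _ => ?_
  exact (measurable_pi_apply i).comp (measurable_pi_apply y)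

theorem measurable_nextGen : Measurable (fun p : (X →₀ ℕ) × (X → ℕ → X →₀ ℕ) => nextGen p.1 p.2) :=
  measurable_from_prod_countable_right fun z => measurable_nextGen_right z

theorem measurable_gen (z : X →₀ ℕ) (n : ℕ) : Measurable (fun ω => gen z ω n) := by
  induction n with
  | zero => exact measurable_const
  | succ n ih =>
    exact measurable_nextGen.comp (ih.prodMk (measurable_pi_apply n))

omit [Countable X] in
theorem gen_cons (z : X →₀ ℕ) (η : X → ℕ → X →₀ ℕ) (ω : ℕ → X → ℕ → X →₀ ℕ) (n : ℕ) :
    gen z (cons η ω) (n + 1) = gen (nextGen z η) ω n := by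
  induction n with
  | zero => rfl
  | succ n ih =>
    rw [gen, ih]
    rfl

/-- Integral of a finite product of functions of different coordinates. -/
theorem lintegral_prod_infinitePi {ι : Type*} {Ω : ι → Type*} {mΩ : ∀ i, MeasurableSpace (Ω i)}
    (P : (i : ι) → Measure (Ω i)) [∀ i, IsProbabilityMeasure (P i)] (s : Finset ι)
    (f : (i : ι) → Ω i → ℝ≥0∞) (hf : ∀ i, Measurable (f i)) :
    ∫⁻ ω, ∏ i ∈ s, f i (ω i) ∂(Measure.infinitePi P) = ∏ i ∈ s, ∫⁻ x, f i x ∂(P i) := by
  have h := lintegral_prod_eq_prod_lintegral_of_indepFun (μ := Measure.infinitePi P) s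
    (fun i ω => f i (ω i)) (iIndepFun_infinitePi hf) (fun i => (hf i).comp (measurable_pi_apply i))
  rw [h]
  refine Finset.prod_congr rfl fun i _ => ?_
  exact (measurePreserving_eval_infinitePi P i).lintegral_comp (hf i)

/-- The branching property for one generation. -/
theorem lintegral_mon_nextGen (p : X → PMF (X →₀ ℕ)) (s : X → ℝ≥0∞) (z : X →₀ ℕ) :
    ∫⁻ η, mon s (nextGen z η) ∂(env p) = mon (G p s) z := by
  have h1 : ∀ η : X → ℕ → X →₀ ℕ, mon s (nextGen z η) =
      ∏ y ∈ z.support, ∏ i ∈ Finset.range (z y), mon s (η y i) := by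
    intro η
    unfold nextGen Finsupp.sum
    rw [mon_finset_sum]
    exact Finset.prod_congr rfl fun y _ => mon_finset_sum _ _ _
  simp only [h1]
  unfold env
  rw [lintegral_prod_infinitePi (fun y => Measure.infinitePi fun _ => (p y).toMeasure) z.support
    (fun y ζ => ∏ i ∈ Finset.range (z y), mon s (ζ i)) ?_]
  · unfold mon Finsupp.prod
    refine Finset.prod_congr rfl fun y _ => ?_
    have h2 := lintegral_prod_infinitePi (fun _ : ℕ => (p y).toMeasure) (Finset.range (z y))
      (fun _ w => mon s w) (fun _ => measurable_of_countable _)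
    rw [← G_eq_lintegral, Finset.prod_const, Finset.card_range] at h2
    exact h2
  · intro y
    refine Finset.measurable_fun_prod _ fun i _ => ?_
    exact (measurable_of_countable (mon s)).comp (measurable_pi_apply i)

/-! ### Extinction probabilities -/

/-- No individual with type in `A`. -/
def Free (A : Set X) (z : X →₀ ℕ) : Prop := ∀ y ∈ A, z y = 0

open Classical in
/-- The indicator of the complement of `A`. -/
noncomputable def ind (A : Set X) (x : X) : ℝ≥0∞ := if x ∈ A then 0 else 1

omit [Countable X] in
theorem ind_le_one (A : Set X) (x : X) : ind A x ≤ 1 := by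
  unfold ind; split_ifs <;> simp

omit [Countable X] in
open Classical in
theorem mon_ind (A : Set X) (z : X →₀ ℕ) : mon (ind A) z = if Free A z then 1 else 0 := by
  unfold mon Finsupp.prod
  split_ifs with h
  · refine Finset.prod_eq_one fun y hy => ?_
    have h1 : y ∉ A := fun h2 => (Finsupp.mem_support_iff.1 hy) (h y h2)
    simp [ind, h1]
  · unfold Free at h
    push Not at h
    obtain ⟨y, hy, hz⟩ := h
    refine Finset.prod_eq_zero (Finsupp.mem_support_iff.2 hz) ?_
    simp [ind, hy, hz]

/-- The probabilities `P_x(no individual in A in generations 0, …, N)`. -/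
noncomputable def avoid (p : X → PMF (X →₀ ℕ)) (A : Set X) : ℕ → X → ℝ≥0∞
  | 0 => ind A
  | N + 1 => fun x => ind A x * G p (avoid p A N) x

theorem measurableSet_window (A : Set X) (z : X →₀ ℕ) (n N : ℕ) :
    MeasurableSet {ω : ℕ → X → ℕ → X →₀ ℕ | ∀ m, n ≤ m → m ≤ N → Free A (gen z ω m)} := by
  have h : {ω : ℕ → X → ℕ → X →₀ ℕ | ∀ m, n ≤ m → m ≤ N → Free A (gen z ω m)} =
      ⋂ m : ℕ, ⋂ _ : n ≤ m, ⋂ _ : m ≤ N, (fun ω => gen z ω m) ⁻¹' {w | Free A w} := by
    ext ω; simp
  rw [h]
  exact MeasurableSet.iInter fun m => MeasurableSet.iInter fun _ => MeasurableSet.iInter fun _ =>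
    (measurable_gen z m) MeasurableSet.of_discrete

theorem window_eq (p : X → PMF (X →₀ ℕ)) (A : Set X) (n N : ℕ) (z : X →₀ ℕ) :
    law p {ω | ∀ m, n ≤ m → m ≤ n + N → Free A (gen z ω m)} =
      mon ((G p)^[n] (avoid p A N)) z := by
  classical
  induction n generalizing z with
  | zero =>
    induction N generalizing z with
    | zero =>
      rw [Function.iterate_zero, id, avoid, mon_ind]
      by_cases h : Free A z
      · rw [if_pos h]
        have h1 : {ω : ℕ → X → ℕ → X →₀ ℕ | ∀ m, 0 ≤ m → m ≤ 0 + 0 → Free A (gen z ω m)} = Set.univ := by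
          ext ω
          simp only [Set.mem_ofPred_eq, Set.mem_univ, iff_true]
          intro m _ hm
          have : m = 0 := by omega
          rw [this]; exact h
        rw [h1, measure_univ]
      · rw [if_neg h]
        have h1 : {ω : ℕ → X → ℕ → X →₀ ℕ | ∀ m, 0 ≤ m → m ≤ 0 + 0 → Free A (gen z ω m)} = ∅ := by
          ext ω
          simp only [Set.mem_ofPred_eq, Set.mem_empty_iff_false, iff_false]
          intro h2
          exact h (h2 0 le_rfl (by omega))
        rw [h1, measure_empty]
    | succ N ih =>
      rw [Function.iterate_zero, id, avoid, mon_mul, mon_ind, law_eq,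
        measure_cons _ (measurableSet_window A z 0 _)]
      by_cases h : Free A z
      · rw [if_pos h, one_mul, ← lintegral_mon_nextGen]
        refine lintegral_congr fun η => ?_
        have h1 := ih (nextGen z η)
        rw [Function.iterate_zero, id] at h1
        rw [← h1, law_eq]
        congr 1
        ext ω
        simp only [Set.mem_ofPred_eq]
        constructor
        · intro h2 m _ hm
          rw [← gen_cons]
          exact h2 (m + 1) (by omega) (by omega)
        · intro h2 m _ hm
          cases m with
          | zero => exact h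
          | succ m =>
            rw [gen_cons]
            exact h2 m (by omega) (by omega)
      · rw [if_neg h, zero_mul]
        have h3 : ∀ η : X → ℕ → X →₀ ℕ, {ω : ℕ → X → ℕ → X →₀ ℕ | cons η ω ∈
            {ω : ℕ → X → ℕ → X →₀ ℕ | ∀ m, 0 ≤ m → m ≤ 0 + (N + 1) → Free A (gen z ω m)}} = ∅ := by
          intro η
          ext ω
          simp only [Set.mem_ofPred_eq, Set.mem_empty_iff_false, iff_false]
          exact fun h2 => h (h2 0 le_rfl (by omega))
        simp only [h3, measure_empty, lintegral_zero]
  | succ n ih =>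
    rw [Function.iterate_succ', Function.comp, law_eq, measure_cons _ (measurableSet_window A z _ _),
      ← lintegral_mon_nextGen]
    refine lintegral_congr fun η => ?_
    rw [← ih (nextGen z η), law_eq]
    congr 1
    ext ω
    simp only [Set.mem_ofPred_eq]
    constructor
    · intro h2 m hm1 hm2
      rw [← gen_cons]
      exact h2 (m + 1) (by omega) (by omega)
    · intro h2 m hm1 hm2
      cases m with
      | zero => omega
      | succ m =>
        rw [gen_cons]
        exact h2 m (by omega) (by omega)

end Q287.MG
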